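import Mathlib

set_option autoImplicit false

namespace Pool.Agent.Q290.Abc

/-- the radical: the product of the different prime factors -/
def R (m : ℕ) : ℕ := ∏ p ∈ m.primeFactors, p

/-- coprime positive integers `a`, `b` and their sum `c` -/
def IsTriple (t : ℕ × ℕ × ℕ) : Prop :=
  0 < t.1 ∧ 0 < t.2.1 ∧ Nat.Coprime t.1 t.2.1 ∧ t.1 + t.2.1 = t.2.2

lemma R_pos (m : ℕ) : 0 < R m :=
  Finset.prod_pos fun _ hp => (Nat.prime_of_mem_primeFactors hp).pos

lemma R_le {m : ℕ} (hm : 0 < m) : R m ≤ m :=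
  Nat.le_of_dvd hm (Nat.prod_primeFactors_dvd m)

lemma R_mul_le (m n : ℕ) : R (m * n) ≤ R m * R n := by
  rcases Nat.eq_zero_or_pos m with rfl | hm
  · have := R_pos n
    simp only [zero_mul, R, Nat.primeFactors_zero, Finset.prod_empty, one_mul]
    exact this
  rcases Nat.eq_zero_or_pos n with rfl | hn
  · have := R_pos m
    simp only [mul_zero, R, Nat.primeFactors_zero, Finset.prod_empty, mul_one]
    exact this
  unfold R
  rw [Nat.primeFactors_mul hm.ne' hn.ne', ← Finset.prod_union_inter]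
  refine Nat.le_mul_of_pos_right _ (Finset.prod_pos fun p hp => ?_)
  exact (Nat.prime_of_mem_primeFactors (Finset.mem_inter.1 hp).1).pos

lemma R_pow_le (m k : ℕ) (hk : 0 < k) : R (m ^ k) ≤ R m := by
  unfold R
  rw [Nat.primeFactors_pow _ hk.ne']

lemma R_108 : R 108 = 6 := by
  have h : (108 : ℕ) = 2 ^ 2 * 3 ^ 3 := by norm_num
  have h2 : (108 : ℕ).primeFactors = {2, 3} := by
    rw [h, Nat.primeFactors_mul (by norm_num) (by norm_num), Nat.primeFactors_pow _ (by norm_num),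
      Nat.primeFactors_pow _ (by norm_num), Nat.Prime.primeFactors Nat.prime_two,
      Nat.Prime.primeFactors Nat.prime_three]
    rfl
  unfold R
  rw [h2]
  rfl

/-! ### the octahedral forms -/

/-- the form of degree `12` -/
def xx (X Y : ℕ) : ℕ :=
  ((X : ℤ) ^ 12 - 33 * X ^ 8 * Y ^ 4 - 33 * X ^ 4 * Y ^ 8 + Y ^ 12).natAbs

/-- the form of degree `6` -/
def yy (X Y : ℕ) : ℕ := X * Y * (X - Y) * ((X + Y) * (X ^ 2 + Y ^ 2))

/-- the form of degree `8` -/
def zz (X Y : ℕ) : ℕ := X ^ 8 + 14 * X ^ 4 * Y ^ 4 + Y ^ 8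

lemma identity {X Y : ℕ} (h : Y ≤ X) : xx X Y ^ 2 + 108 * yy X Y ^ 4 = zz X Y ^ 3 := by
  zify [xx, yy, zz, h]
  rw [sq_abs]
  ring

lemma zz_ge (X Y : ℕ) : X ^ 8 ≤ zz X Y := by
  unfold zz
  nlinarith [Nat.zero_le (14 * X ^ 4 * Y ^ 4), Nat.zero_le (Y ^ 8)]

lemma zz_le {X Y : ℕ} (h : Y ≤ X) : zz X Y ≤ 16 * X ^ 8 := by
  unfold zz
  have h1 : Y ^ 4 ≤ X ^ 4 := Nat.pow_le_pow_left h 4
  have h2 : Y ^ 8 ≤ X ^ 8 := Nat.pow_le_pow_left h 8
  have h3 : 14 * X ^ 4 * Y ^ 4 ≤ 14 * X ^ 4 * X ^ 4 := Nat.mul_le_mul_left _ h1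
  have h4 : 14 * X ^ 4 * X ^ 4 = 14 * X ^ 8 := by ring
  omega

lemma coprime_xz {X Y : ℕ} (hc : Nat.Coprime X Y) (hpar : Odd (X + Y)) :
    Nat.Coprime (xx X Y) (zz X Y) := by
  rw [Nat.coprime_iff_gcd_eq_one]
  by_contra hne
  obtain ⟨p, hp, hpd⟩ := Nat.exists_prime_and_dvd hne
  have hpx : p ∣ xx X Y := hpd.trans (Nat.gcd_dvd_left _ _)
  have hpz : p ∣ zz X Y := hpd.trans (Nat.gcd_dvd_right _ _)
  have hpi : Prime (p : ℤ) := Nat.prime_iff_prime_int.1 hp
  set s : ℤ := (X : ℤ) ^ 4 + (Y : ℤ) ^ 4 with hs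
  set m : ℤ := (X : ℤ) ^ 4 * (Y : ℤ) ^ 4 with hm
  have hz : (p : ℤ) ∣ s ^ 2 + 12 * m := by
    have : ((zz X Y : ℕ) : ℤ) = s ^ 2 + 12 * m := by
      unfold zz; push_cast; rw [hs, hm]; ring
    rw [← this]
    exact_mod_cast hpz
  have hx : (p : ℤ) ∣ s * (s ^ 2 - 36 * m) := by
    have h1 : (p : ℤ) ∣ (X : ℤ) ^ 12 - 33 * X ^ 8 * Y ^ 4 - 33 * X ^ 4 * Y ^ 8 + Y ^ 12 :=
      Int.natCast_dvd.2 hpx
    have h2 : (X : ℤ) ^ 12 - 33 * X ^ 8 * Y ^ 4 - 33 * X ^ 4 * Y ^ 8 + Y ^ 12 =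
        s * (s ^ 2 - 36 * m) := by rw [hs, hm]; ring
    rwa [h2] at h1
  -- `p` does not divide `s` and `m`
  have hsm : (p : ℤ) ∣ s → (p : ℤ) ∣ m → False := by
    intro h1 h2
    rcases hpi.dvd_or_dvd h2 with h3 | h3
    · have h4 : (p : ℤ) ∣ (Y : ℤ) ^ 4 := (dvd_add_right h3).1 h1
      have h5 := hpi.dvd_of_dvd_pow h3
      have h6 := hpi.dvd_of_dvd_pow h4
      have h7 : p ∣ Nat.gcd X Y :=
        Nat.dvd_gcd (by exact_mod_cast h5) (by exact_mod_cast h6)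
      rw [hc] at h7
      exact hp.one_lt.ne' (Nat.dvd_one.1 h7)
    · have h4 : (p : ℤ) ∣ (X : ℤ) ^ 4 := (dvd_add_left h3).1 h1
      have h5 := hpi.dvd_of_dvd_pow h3
      have h6 := hpi.dvd_of_dvd_pow h4
      have h7 : p ∣ Nat.gcd X Y :=
        Nat.dvd_gcd (by exact_mod_cast h6) (by exact_mod_cast h5)
      rw [hc] at h7
      exact hp.one_lt.ne' (Nat.dvd_one.1 h7)
  -- `s` is odd
  have hsodd : Odd s := by
    have h1 : Odd ((X : ℤ) + Y) := by exact_mod_cast hpar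
    rw [hs]
    rcases Int.even_or_odd (X : ℤ) with h2 | h2
    · have h3 : Odd (Y : ℤ) := by
        by_contra h4
        rw [Int.not_odd_iff_even] at h4
        exact (Int.not_odd_iff_even.2 (h2.add h4)) h1
      exact Even.add_odd (h2.pow_of_ne_zero (by norm_num)) h3.pow
    · have h3 : Even (Y : ℤ) := by
        by_contra h4
        rw [Int.not_even_iff_odd] at h4
        exact (Int.not_odd_iff_even.2 (h2.add_odd h4)) h1
      exact Odd.add_even h2.pow (h3.pow_of_ne_zero (by norm_num))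
  have hzodd : Odd (s ^ 2 + 12 * m) := by
    refine hsodd.pow.add_even ?_
    exact ⟨6 * m, by ring⟩
  have hp2 : p ≠ 2 := by
    rintro rfl
    have : Even (s ^ 2 + 12 * m) := even_iff_two_dvd.2 (by exact_mod_cast hz)
    exact (Int.not_odd_iff_even.2 this) hzodd
  -- `3` does not divide `s`
  have h3s : ¬ (3 : ℤ) ∣ s := by
    intro h
    have hX : ∀ a : ℤ, a ^ 4 % 3 = 0 ∨ a ^ 4 % 3 = 1 := by
      intro a
      have h1 : a % 3 = 0 ∨ a % 3 = 1 ∨ a % 3 = 2 := by omega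
      rcases h1 with h1 | h1 | h1 <;> simp [pow_succ, Int.mul_emod, h1]
    have h1 := hX X
    have h2 := hX Y
    have h4 : (s % 3) = 0 := Int.emod_eq_zero_of_dvd h
    rw [hs] at h4
    have h5 : (X : ℤ) ^ 4 % 3 = 0 ∧ (Y : ℤ) ^ 4 % 3 = 0 := by omega
    have h6 : (3 : ℤ) ∣ (X : ℤ) := Int.prime_three.dvd_of_dvd_pow (Int.dvd_of_emod_eq_zero h5.1)
    have h7 : (3 : ℤ) ∣ (Y : ℤ) := Int.prime_three.dvd_of_dvd_pow (Int.dvd_of_emod_eq_zero h5.2)
    have h8 : 3 ∣ Nat.gcd X Y := Nat.dvd_gcd (by exact_mod_cast h6) (by exact_mod_cast h7)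
    rw [hc] at h8
    omega
  have hp3 : p ≠ 3 := by
    rintro rfl
    apply h3s
    have h1 : (3 : ℤ) ∣ s ^ 2 := by
      have h2 : (3 : ℤ) ∣ 12 * m := ⟨4 * m, by ring⟩
      have h3 : (3 : ℤ) ∣ s ^ 2 + 12 * m := by exact_mod_cast hz
      exact (dvd_add_left h2).1 h3
    exact Int.prime_three.dvd_of_dvd_pow h1
  have hp48 : ∀ k : ℕ, (p : ℤ) ∣ (2 ^ k * 3 : ℤ) * m → (p : ℤ) ∣ m := by
    intro k h
    rcases hpi.dvd_or_dvd h with h1 | h1
    · exfalso
      have h2 : p ∣ 2 ^ k * 3 := by exact_mod_cast h1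
      rcases (Nat.Prime.dvd_mul hp).1 h2 with h3 | h3
      · exact hp2 ((Nat.prime_dvd_prime_iff_eq hp Nat.prime_two).1 (hp.dvd_of_dvd_pow h3))
      · exact hp3 ((Nat.prime_dvd_prime_iff_eq hp Nat.prime_three).1 h3)
    · exact h1
  rcases hpi.dvd_or_dvd hx with h | h
  · have h1 : (p : ℤ) ∣ (2 ^ 2 * 3 : ℤ) * m := by
      have h2 : (p : ℤ) ∣ s ^ 2 := dvd_pow h (by norm_num)
      have h3 := (dvd_add_right h2).1 hz
      have e : (2 ^ 2 * 3 : ℤ) * m = 12 * m := by ring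
      rw [e]
      exact h3
    exact hsm h (hp48 2 h1)
  · have h1 : (p : ℤ) ∣ (2 ^ 4 * 3 : ℤ) * m := by
      have h2 := dvd_sub hz h
      have e : (2 ^ 4 * 3 : ℤ) * m = s ^ 2 + 12 * m - (s ^ 2 - 36 * m) := by ring
      rw [e]
      exact h2
    have h2 := hp48 4 h1
    have h3 : (p : ℤ) ∣ s ^ 2 := by
      have h4 : (p : ℤ) ∣ 12 * m := Dvd.dvd.mul_left h2 12
      exact (dvd_add_left h4).1 hz
    exact hsm (hpi.dvd_of_dvd_pow h3) h2

/-- the step: `(a, b, c)` is replaced by `(x², 108 y⁴, z³)`, where `x`, `y`, `z` are the octahedral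
forms of `c` and `b` or of `c` and `a` -/
def step (t : ℕ × ℕ × ℕ) : ℕ × ℕ × ℕ :=
  let Y := if Even t.2.1 then t.2.1 else t.1
  (xx t.2.2 Y ^ 2, 108 * yy t.2.2 Y ^ 4, zz t.2.2 Y ^ 3)

/-- everything about the step that is needed -/
lemma step_spec {t : ℕ × ℕ × ℕ} (ht : IsTriple t) :
    IsTriple (step t) ∧ t.2.2 ^ 24 ≤ (step t).2.2 ∧ (step t).2.2 ≤ 4096 * t.2.2 ^ 24 ∧
      t.2.2 * R ((step t).1 * (step t).2.1 * (step t).2.2) ≤
        24 * (step t).2.2 * R (t.1 * t.2.1 * t.2.2) := by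
  obtain ⟨a, b, c⟩ := t
  obtain ⟨ha, hb, hab, habc⟩ := ht
  simp only at ha hb hab habc
  -- the choice of `Y`
  obtain ⟨Y, hY⟩ : ∃ Y, Y = if Even b then b else a := ⟨_, rfl⟩
  have hstep : step (a, b, c) = (xx c Y ^ 2, 108 * yy c Y ^ 4, zz c Y ^ 3) := by
    rw [hY]; rfl
  have hcase : (Y = b ∨ Y = a) := by
    rw [hY]; split_ifs <;> simp
  have hYpos : 0 < Y := by rcases hcase with h | h <;> omega
  have hYc : Y < c := by rcases hcase with h | h <;> omega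
  have hcpos : 0 < c := by omega
  have hprod : c * Y * (c - Y) = a * b * c := by
    rcases hcase with h | h
    · rw [h, show c - b = a by omega]; ring
    · rw [h, show c - a = b by omega]; ring
  have hcop : Nat.Coprime c Y := by
    rcases hcase with h | h
    · rw [h, ← habc]
      exact Nat.coprime_add_self_left.2 hab
    · rw [h, ← habc]
      exact Nat.coprime_self_add_left.2 hab.symm
  have hpar : Odd (c + Y) := by
    rw [hY]
    split_ifs with h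
    · -- `b` even, so `a` odd
      have ha' : Odd a := by
        by_contra h1
        rw [Nat.not_odd_iff_even] at h1
        have h2 : 2 ∣ Nat.gcd a b := Nat.dvd_gcd h1.two_dvd h.two_dvd
        rw [hab] at h2
        omega
      rw [← habc]
      have : a + b + b = a + 2 * b := by ring
      rw [this]
      exact ha'.add_even (even_two_mul b)
    · rw [Nat.not_even_iff_odd] at h
      rw [← habc]
      have : a + b + a = b + 2 * a := by ring
      rw [this]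
      exact h.add_even (even_two_mul a)
  have hid := identity hYc.le
  have hxz := coprime_xz hcop hpar
  have hxpos : 0 < xx c Y := by
    rw [Nat.pos_iff_ne_zero]
    intro h0
    rw [h0, Nat.coprime_zero_left] at hxz
    have h1 := zz_ge c Y
    rw [hxz] at h1
    have h2 : 2 ≤ c := by omega
    have h3 : 2 ^ 8 ≤ c ^ 8 := Nat.pow_le_pow_left h2 8
    omega
  have hypos : 0 < yy c Y := by
    unfold yy
    have h1 : 0 < c - Y := by omega
    positivity
  have hzpos : 0 < zz c Y := lt_of_lt_of_le (by positivity) (zz_ge c Y)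
  have hge : c ^ 24 ≤ zz c Y ^ 3 := by
    calc c ^ 24 = (c ^ 8) ^ 3 := by ring
      _ ≤ zz c Y ^ 3 := Nat.pow_le_pow_left (zz_ge c Y) 3
  have hle : zz c Y ^ 3 ≤ 4096 * c ^ 24 := by
    calc zz c Y ^ 3 ≤ (16 * c ^ 8) ^ 3 := Nat.pow_le_pow_left (zz_le hYc.le) 3
      _ = 4096 * c ^ 24 := by ring
  rw [hstep]
  refine ⟨⟨by positivity, by positivity, ?_, hid⟩, hge, hle, ?_⟩
  · -- coprimality
    simp only
    have h1 : Nat.Coprime (xx c Y ^ 2) (zz c Y ^ 3) := Nat.Coprime.pow _ _ hxz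
    rw [← hid] at h1
    simpa using h1
  · simp only
    have e1 : R (xx c Y ^ 2 * (108 * yy c Y ^ 4) * zz c Y ^ 3) ≤
        xx c Y * (6 * R (yy c Y)) * zz c Y := by
      refine (R_mul_le _ _).trans ?_
      refine Nat.mul_le_mul ?_ ((R_pow_le _ _ (by norm_num)).trans (R_le hzpos))
      refine (R_mul_le _ _).trans ?_
      refine Nat.mul_le_mul ((R_pow_le _ _ (by norm_num)).trans (R_le hxpos)) ?_
      refine (R_mul_le _ _).trans ?_
      rw [R_108]
      exact Nat.mul_le_mul_left _ (R_pow_le _ _ (by norm_num))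
    have e2 : R (yy c Y) ≤ R (a * b * c) * (2 * c * (2 * c ^ 2)) := by
      unfold yy
      refine (R_mul_le _ _).trans ?_
      rw [hprod]
      refine Nat.mul_le_mul_left _ ?_
      refine (R_le (by positivity)).trans ?_
      refine Nat.mul_le_mul (by omega) ?_
      have : Y ^ 2 ≤ c ^ 2 := Nat.pow_le_pow_left hYc.le 2
      omega
    -- `24 c⁴ x ≤ 24 z²`
    have e3 : c ^ 4 * xx c Y ≤ zz c Y ^ 2 := by
      have h1 : xx c Y ^ 2 ≤ zz c Y ^ 3 := by rw [← hid]; exact Nat.le_add_right _ _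
      have h2 : (c ^ 4 * xx c Y) ^ 2 ≤ (zz c Y ^ 2) ^ 2 := by
        calc (c ^ 4 * xx c Y) ^ 2 = c ^ 8 * xx c Y ^ 2 := by ring
          _ ≤ zz c Y * zz c Y ^ 3 := Nat.mul_le_mul (zz_ge c Y) h1
          _ = (zz c Y ^ 2) ^ 2 := by ring
      exact (Nat.pow_le_pow_iff_left (by norm_num)).1 h2
    calc c * R (xx c Y ^ 2 * (108 * yy c Y ^ 4) * zz c Y ^ 3)
        ≤ c * (xx c Y * (6 * (R (a * b * c) * (2 * c * (2 * c ^ 2)))) * zz c Y) := by
          refine Nat.mul_le_mul_left _ (e1.trans ?_)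
          gcongr
      _ = 24 * (c ^ 4 * xx c Y) * zz c Y * R (a * b * c) := by ring
      _ ≤ 24 * (zz c Y ^ 2) * zz c Y * R (a * b * c) := by gcongr
      _ = 24 * zz c Y ^ 3 * R (a * b * c) := by ring

end Pool.Agent.Q290.Abc
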