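import Pool.Agent.Q290.Abc.Basic
import Pool.Agent.TH871.L1.Const

set_option autoImplicit false

namespace Pool.Agent.Q290.Abc

open Filter Topology

/-- the inequality of the abc conjecture for the triples in `T` -/
def ABC (T : Set (ℕ × ℕ × ℕ)) : Prop :=
  ∀ ε : ℝ, 0 < ε → ∃ K : ℝ, ∀ t ∈ T, IsTriple t →
    (t.2.2 : ℝ) ≤ K * (R (t.1 * t.2.1 * t.2.2) : ℝ) ^ (1 + ε)

/-- the triples obtained from coprime triples by `k` steps -/
def Fam (k : ℕ) : Set (ℕ × ℕ × ℕ) := step^[k] '' {t | IsTriple t}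

/-- another form of the inequality -/
def ABC' (T : Set (ℕ × ℕ × ℕ)) : Prop :=
  ∀ ε : ℝ, 0 < ε → ∃ K : ℝ, 0 < K ∧ ∀ t ∈ T, IsTriple t →
    (t.2.2 : ℝ) ≤ K * (R (t.1 * t.2.1 * t.2.2) : ℝ) * (t.2.2 : ℝ) ^ ε

lemma one_le_c {t : ℕ × ℕ × ℕ} (h : IsTriple t) : (1 : ℝ) ≤ t.2.2 := by
  obtain ⟨h1, h2, _, h4⟩ := h
  have : 1 ≤ t.2.2 := by omega
  exact_mod_cast this

lemma abc_iff (T : Set (ℕ × ℕ × ℕ)) : ABC T ↔ ABC' T := by
  constructor
  · intro h ε hε
    obtain ⟨K, hK⟩ := h ε hε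
    refine ⟨max K 1, by positivity, fun t ht hT => ?_⟩
    have hc := one_le_c hT
    have hc0 : (0 : ℝ) < t.2.2 := by linarith
    have hR : (0 : ℝ) < R (t.1 * t.2.1 * t.2.2) := by exact_mod_cast R_pos _
    have hR1 : (1 : ℝ) ≤ R (t.1 * t.2.1 * t.2.2) := by exact_mod_cast R_pos _
    have h1 : (t.2.2 : ℝ) ≤ max K 1 * (R (t.1 * t.2.1 * t.2.2) : ℝ) ^ (1 + ε) := by
      refine (hK t ht hT).trans ?_
      gcongr
      exact le_max_left _ _
    have hM : (1 : ℝ) ≤ max K 1 := le_max_right _ _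
    -- `R ≥ (c / M) ^ (1 / (1 + ε))`
    have h2 : (t.2.2 : ℝ) ^ (1 / (1 + ε)) ≤
        (max K 1) ^ (1 / (1 + ε)) * (R (t.1 * t.2.1 * t.2.2) : ℝ) := by
      have h3 := Real.rpow_le_rpow hc0.le h1 (show (0 : ℝ) ≤ 1 / (1 + ε) by positivity)
      rw [Real.mul_rpow (by positivity) (by positivity), ← Real.rpow_mul hR.le,
        mul_one_div_cancel (by positivity), Real.rpow_one] at h3
      exact h3
    have h3 : (max K 1) ^ (1 / (1 + ε)) ≤ max K 1 := by
      calc (max K 1) ^ (1 / (1 + ε)) ≤ (max K 1) ^ (1 : ℝ) := by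
            refine Real.rpow_le_rpow_of_exponent_le hM ?_
            rw [div_le_one (by positivity)]
            linarith
        _ = max K 1 := Real.rpow_one _
    have h4 : (t.2.2 : ℝ) = (t.2.2 : ℝ) ^ (1 / (1 + ε)) * (t.2.2 : ℝ) ^ (ε / (1 + ε)) := by
      rw [← Real.rpow_add hc0, ← add_div, div_self (by positivity), Real.rpow_one]
    have h5 : (t.2.2 : ℝ) ^ (ε / (1 + ε)) ≤ (t.2.2 : ℝ) ^ ε := by
      refine Real.rpow_le_rpow_of_exponent_le hc ?_
      rw [div_le_iff₀ (by positivity)]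
      nlinarith
    calc (t.2.2 : ℝ) = (t.2.2 : ℝ) ^ (1 / (1 + ε)) * (t.2.2 : ℝ) ^ (ε / (1 + ε)) := h4
      _ ≤ ((max K 1) ^ (1 / (1 + ε)) * (R (t.1 * t.2.1 * t.2.2) : ℝ)) * (t.2.2 : ℝ) ^ ε := by
          gcongr
      _ ≤ (max K 1 * (R (t.1 * t.2.1 * t.2.2) : ℝ)) * (t.2.2 : ℝ) ^ ε := by gcongr
  · intro h ε hε
    have hδ : 0 < ε / (1 + ε) := by positivity
    obtain ⟨K, hK0, hK⟩ := h (ε / (1 + ε)) hδ
    refine ⟨K ^ (1 + ε), fun t ht hT => ?_⟩
    have hc := one_le_c hT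
    have hc0 : (0 : ℝ) < t.2.2 := by linarith
    have hR : (0 : ℝ) < R (t.1 * t.2.1 * t.2.2) := by exact_mod_cast R_pos _
    have h1 := hK t ht hT
    have h2 : (t.2.2 : ℝ) ^ (1 / (1 + ε)) ≤ K * R (t.1 * t.2.1 * t.2.2) := by
      have h3 : (t.2.2 : ℝ) = (t.2.2 : ℝ) ^ (1 / (1 + ε)) * (t.2.2 : ℝ) ^ (ε / (1 + ε)) := by
        rw [← Real.rpow_add hc0, ← add_div, div_self (by positivity), Real.rpow_one]
      have h4 : (0 : ℝ) < (t.2.2 : ℝ) ^ (ε / (1 + ε)) := Real.rpow_pos_of_pos hc0 _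
      have h5 : (t.2.2 : ℝ) ^ (1 / (1 + ε)) * (t.2.2 : ℝ) ^ (ε / (1 + ε)) ≤
          K * R (t.1 * t.2.1 * t.2.2) * (t.2.2 : ℝ) ^ (ε / (1 + ε)) := by
        rw [← h3]; exact h1
      exact le_of_mul_le_mul_right h5 h4
    have h3 := Real.rpow_le_rpow (by positivity) h2 (show (0 : ℝ) ≤ 1 + ε by positivity)
    rw [← Real.rpow_mul hc0.le, one_div_mul_cancel (by positivity), Real.rpow_one,
      Real.mul_rpow hK0.le hR.le] at h3
    exact h3

lemma abc'_of_step {T : Set (ℕ × ℕ × ℕ)} (h : ABC' (step '' T)) : ABC' T := by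
  intro ε hε
  obtain ⟨K, hK0, hK⟩ := h (ε / 24) (by positivity)
  refine ⟨24 * K * (4096 : ℝ) ^ (ε / 24), by positivity, fun t ht hT => ?_⟩
  obtain ⟨s1, s2, s3, s4⟩ := step_spec hT
  have h1 := hK (step t) ⟨t, ht, rfl⟩ s1
  set C : ℕ := (step t).2.2 with hC
  set r' : ℕ := R ((step t).1 * (step t).2.1 * C) with hr'
  set r : ℕ := R (t.1 * t.2.1 * t.2.2) with hr
  have hc0 : (0 : ℝ) < t.2.2 := by linarith [one_le_c hT]
  have hr0 : (0 : ℝ) < r' := by exact_mod_cast R_pos _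
  have hrr : (0 : ℝ) < r := by exact_mod_cast R_pos _
  have s3' : (C : ℝ) ≤ 4096 * (t.2.2 : ℝ) ^ 24 := by exact_mod_cast s3
  have s4' : (t.2.2 : ℝ) * r' ≤ 24 * C * r := by exact_mod_cast s4
  have h2 : (C : ℝ) ^ (ε / 24) ≤ (4096 : ℝ) ^ (ε / 24) * (t.2.2 : ℝ) ^ ε := by
    calc (C : ℝ) ^ (ε / 24) ≤ (4096 * (t.2.2 : ℝ) ^ 24) ^ (ε / 24) :=
          Real.rpow_le_rpow (by positivity) s3' (by positivity)
      _ = (4096 : ℝ) ^ (ε / 24) * (t.2.2 : ℝ) ^ ε := by
          rw [Real.mul_rpow (by norm_num) (by positivity), ← Real.rpow_natCast,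
            ← Real.rpow_mul hc0.le]
          congr 2
          push_cast
          ring
  have h3 : (t.2.2 : ℝ) * r' ≤ (24 * K * r * (C : ℝ) ^ (ε / 24)) * r' := by
    calc (t.2.2 : ℝ) * r' ≤ 24 * C * r := s4'
      _ ≤ 24 * (K * r' * (C : ℝ) ^ (ε / 24)) * r := by gcongr
      _ = (24 * K * r * (C : ℝ) ^ (ε / 24)) * r' := by ring
  have h4 := le_of_mul_le_mul_right h3 hr0
  calc (t.2.2 : ℝ) ≤ 24 * K * r * (C : ℝ) ^ (ε / 24) := h4
    _ ≤ 24 * K * r * ((4096 : ℝ) ^ (ε / 24) * (t.2.2 : ℝ) ^ ε) := by gcongr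
    _ = 24 * K * (4096 : ℝ) ^ (ε / 24) * r * (t.2.2 : ℝ) ^ ε := by ring

lemma fam_succ (k : ℕ) : Fam (k + 1) = step '' Fam k := by
  unfold Fam
  rw [Set.image_image]
  refine Set.image_congr fun t _ => ?_
  rw [Function.iterate_succ_apply']

lemma fam_zero : Fam 0 = {t | IsTriple t} := by
  unfold Fam
  simp

lemma fam_triple (k : ℕ) : ∀ t ∈ Fam k, IsTriple t := by
  induction k with
  | zero => intro t ht; rw [fam_zero] at ht; exact ht
  | succ k ih =>
    intro t ht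
    rw [fam_succ] at ht
    obtain ⟨u, hu, rfl⟩ := ht
    exact (step_spec (ih u hu)).1

lemma abc_mono {S T : Set (ℕ × ℕ × ℕ)} (h : S ⊆ T) (hT : ABC T) : ABC S := by
  intro ε hε
  obtain ⟨K, hK⟩ := hT ε hε
  exact ⟨K, fun t ht => hK t (h ht)⟩

lemma abc'_fam (k : ℕ) (h : ABC' (Fam k)) : ABC' (Fam 0) := by
  induction k with
  | zero => exact h
  | succ k ih =>
    rw [fam_succ] at h
    exact ih (abc'_of_step h)

theorem abc_fam (k : ℕ) (T : Set (ℕ × ℕ × ℕ)) (hT : Fam k ⊆ T) : ABC T ↔ ABC Set.univ := by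
  constructor
  · intro h
    have h1 := abc'_fam k ((abc_iff _).1 (abc_mono hT h))
    have h2 := (abc_iff _).2 h1
    intro ε hε
    obtain ⟨K, hK⟩ := h2 ε hε
    refine ⟨K, fun t _ ht => hK t ?_ ht⟩
    rw [fam_zero]
    exact ht
  · exact abc_mono (Set.subset_univ T)

theorem fam_shape (k : ℕ) : ∀ t ∈ Fam (k + 1),
    IsTriple t ∧ ∃ x y z : ℕ, t = (x ^ 2, 108 * y ^ 4, z ^ 3) := by
  intro t ht
  refine ⟨fam_triple _ t ht, ?_⟩
  rw [fam_succ] at ht
  obtain ⟨u, hu, rfl⟩ := ht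
  exact ⟨_, _, _, rfl⟩

lemma iter_ge (k : ℕ) : ∀ u : ℕ × ℕ × ℕ, IsTriple u → u.2.2 ^ 24 ^ k ≤ (step^[k] u).2.2 := by
  induction k with
  | zero => intro u _; simp
  | succ k ih =>
    intro u hu
    rw [Function.iterate_succ_apply]
    obtain ⟨s1, s2, _, _⟩ := step_spec hu
    refine le_trans ?_ (ih _ s1)
    calc u.2.2 ^ 24 ^ (k + 1) = (u.2.2 ^ 24) ^ 24 ^ k := by rw [← pow_mul, pow_succ']
      _ ≤ (step u).2.2 ^ 24 ^ k := Nat.pow_le_pow_left s2 _

theorem fam_count (k N : ℕ) : (Fam k ∩ {t | t.2.2 ≤ N}).Finite ∧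
    ((Fam k ∩ {t | t.2.2 ≤ N}).ncard : ℝ) ≤ (N : ℝ) ^ ((2 : ℝ) / 24 ^ k) := by
  set M : ℕ := ⌊(N : ℝ) ^ ((1 : ℝ) / 24 ^ k)⌋₊ with hM
  set F : Finset (ℕ × ℕ) := Finset.Icc 1 M ×ˢ Finset.Icc 1 M with hF
  set G : Finset (ℕ × ℕ × ℕ) := F.image (fun p => step^[k] (p.1, p.2, p.1 + p.2)) with hG
  have hsub : Fam k ∩ {t | t.2.2 ≤ N} ⊆ (G : Set (ℕ × ℕ × ℕ)) := by
    rintro t ⟨⟨u, hu, rfl⟩, htN⟩
    have h1 := (iter_ge k u hu).trans htN
    have h2 : (u.2.2 : ℝ) ≤ (N : ℝ) ^ ((1 : ℝ) / 24 ^ k) := by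
      have h3 : ((u.2.2 : ℝ)) ^ (24 ^ k) ≤ N := by exact_mod_cast h1
      have h4 := Real.rpow_le_rpow (by positivity) h3
        (show (0 : ℝ) ≤ 1 / 24 ^ k by positivity)
      rw [← Real.rpow_natCast, ← Real.rpow_mul (by positivity)] at h4
      have h5 : (((24 ^ k : ℕ) : ℝ)) * (1 / 24 ^ k) = 1 := by
        push_cast
        exact mul_one_div_cancel (by positivity)
      rwa [h5, Real.rpow_one] at h4
    have h3 : u.2.2 ≤ M := Nat.le_floor h2
    obtain ⟨a, b, c⟩ := u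
    obtain ⟨ha, hb, _, hc⟩ := hu
    simp only at ha hb hc h3
    rw [hG, Finset.coe_image]
    refine ⟨(a, b), ?_, ?_⟩
    · rw [hF]
      simp only [Finset.coe_product, Finset.coe_Icc, Set.mem_prod, Set.mem_Icc]
      omega
    · simp only
      rw [hc]
  have hfin : (Fam k ∩ {t | t.2.2 ≤ N}).Finite := (Finset.finite_toSet G).subset hsub
  refine ⟨hfin, ?_⟩
  have h1 : (Fam k ∩ {t | t.2.2 ≤ N}).ncard ≤ M ^ 2 := by
    calc (Fam k ∩ {t | t.2.2 ≤ N}).ncard ≤ (G : Set (ℕ × ℕ × ℕ)).ncard :=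
          Set.ncard_le_ncard hsub (Finset.finite_toSet G)
      _ = G.card := Set.ncard_coe_finset G
      _ ≤ F.card := Finset.card_image_le
      _ = M ^ 2 := by
          rw [hF, Finset.card_product, Nat.card_Icc]
          simp [sq]
  have h2 : (M : ℝ) ≤ (N : ℝ) ^ ((1 : ℝ) / 24 ^ k) := Nat.floor_le (by positivity)
  calc ((Fam k ∩ {t | t.2.2 ≤ N}).ncard : ℝ) ≤ ((M ^ 2 : ℕ) : ℝ) := by exact_mod_cast h1
    _ = (M : ℝ) ^ 2 := by push_cast; rfl
    _ ≤ ((N : ℝ) ^ ((1 : ℝ) / 24 ^ k)) ^ 2 := by gcongr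
    _ = (N : ℝ) ^ ((2 : ℝ) / 24 ^ k) := by
        rw [← Real.rpow_natCast, ← Real.rpow_mul (by positivity)]
        congr 1
        push_cast
        ring

/-! ### triples with a small radical -/

/-- arbitrarily large triples of `T` with `c > R exp (κ √log c / log log c)` -/
def Rec (T : Set (ℕ × ℕ × ℕ)) (κ : ℝ) : Prop :=
  ∀ X : ℝ, ∃ t ∈ T, IsTriple t ∧ X < t.2.2 ∧
    (R (t.1 * t.2.1 * t.2.2) : ℝ) * Real.exp (κ * √(Real.log t.2.2) /
      Real.log (Real.log t.2.2)) < t.2.2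

lemma rec_base {κ : ℝ} (h0 : 0 ≤ κ) (h1 : κ ≤ 6.84) : Rec (Fam 0) κ := by
  intro X
  have hK : κ ≤ 171 / 25 := by norm_num at h1 ⊢; linarith
  obtain ⟨a, b, c, ⟨ha, hb, hc, habc, hab, hac, hbc⟩, hX, hlt⟩ :=
    Pool.Agent.TH871.L1.good_triples h0 hK (max X (Real.exp 1))
  have hc0 : (0 : ℝ) < c := by exact_mod_cast hc
  have hlogX : X < Real.log c := lt_of_le_of_lt (le_max_left _ _) hX
  have hT : IsTriple (a, b, c) := ⟨ha, hb, hab, habc⟩
  refine ⟨(a, b, c), ?_, hT, ?_, ?_⟩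
  · rw [fam_zero]; exact hT
  · have := Real.log_le_sub_one_of_pos hc0
    show X < (c : ℝ)
    linarith
  · have hR0 : 0 < Pool.Agent.H390R2.rad (a * b * c) := by
      refine Finset.prod_pos fun p hp => ?_
      exact (Nat.prime_of_mem_primeFactors hp).pos
    have hR : (0 : ℝ) < (R (a * b * c) : ℝ) := by exact_mod_cast hR0
    show (R (a * b * c) : ℝ) * Real.exp (κ * √(Real.log c) / Real.log (Real.log c)) < c
    have h2 : κ * √(Real.log c) / Real.log (Real.log c) <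
        Real.log c - Real.log (R (a * b * c)) := hlt
    calc (R (a * b * c) : ℝ) * Real.exp (κ * √(Real.log c) / Real.log (Real.log c))
        < (R (a * b * c) : ℝ) * Real.exp (Real.log c - Real.log (R (a * b * c))) := by
          gcongr
      _ = c := by
          rw [Real.exp_sub, Real.exp_log hc0, Real.exp_log hR]
          field_simp

lemma rec_step {T : Set (ℕ × ℕ × ℕ)} {κ κ' : ℝ} (h0 : 0 ≤ κ') (hlt : κ' * √24 < κ)
    (h : Rec T κ) : Rec (step '' T) κ' := by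
  intro X
  -- the analytic condition
  have hev : ∀ᶠ L : ℝ in atTop, Real.log 24 * Real.log L + κ' * √24 ≤ (κ - κ' * √24) * √L := by
    have hδ : 0 < κ - κ' * √24 := by linarith
    have h1 : (fun L : ℝ => Real.log 24 * Real.log L) =o[atTop] fun L : ℝ => √L := by
      have h2 := isLittleO_log_rpow_atTop (show (0 : ℝ) < 1 / 2 by norm_num)
      have h3 : (fun x : ℝ => x ^ (1 / 2 : ℝ)) = fun L : ℝ => √L := by
        funext x; rw [Real.sqrt_eq_rpow]
      rw [h3] at h2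
      exact h2.const_mul_left _
    have h2 : (fun _ : ℝ => κ' * √24) =o[atTop] fun L : ℝ => √L := by
      refine Asymptotics.isLittleO_const_left.2 (Or.inr ?_)
      refine tendsto_norm_atTop_atTop.comp ?_
      exact Real.tendsto_sqrt_atTop
    have h3 := (h1.add h2).bound hδ
    filter_upwards [h3] with L hL
    rw [Real.norm_of_nonneg (Real.sqrt_nonneg _)] at hL
    exact (le_abs_self _).trans hL
  obtain ⟨L0, hL0⟩ := eventually_atTop.1 hev
  obtain ⟨t, htT, ht, hX, hbig⟩ := h (max X (Real.exp (max L0 (Real.exp 1))))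
  obtain ⟨s1, s2, s3, s4⟩ := step_spec ht
  refine ⟨step t, ⟨t, htT, rfl⟩, s1, ?_, ?_⟩
  · have h1 : t.2.2 ≤ (step t).2.2 := by
      refine le_trans ?_ s2
      exact Nat.le_self_pow (by norm_num) _
    have h2 : (t.2.2 : ℝ) ≤ (step t).2.2 := by exact_mod_cast h1
    exact lt_of_lt_of_le (lt_of_le_of_lt (le_max_left _ _) hX) h2
  · set C : ℕ := (step t).2.2 with hC
    set r' : ℕ := R ((step t).1 * (step t).2.1 * C) with hr'
    set r : ℕ := R (t.1 * t.2.1 * t.2.2) with hr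
    have hc1 := one_le_c ht
    have hc0 : (0 : ℝ) < t.2.2 := by linarith
    have hr0 : (0 : ℝ) < r' := by exact_mod_cast R_pos _
    have hrr : (0 : ℝ) < r := by exact_mod_cast R_pos _
    have s2' : (t.2.2 : ℝ) ^ 24 ≤ C := by exact_mod_cast s2
    have s3' : (C : ℝ) ≤ 4096 * (t.2.2 : ℝ) ^ 24 := by exact_mod_cast s3
    have s4' : (t.2.2 : ℝ) * r' ≤ 24 * C * r := by exact_mod_cast s4
    have hC0 : (0 : ℝ) < C := lt_of_lt_of_le (by positivity) s2'
    set L : ℝ := Real.log t.2.2 with hL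
    have hLbig : max L0 (Real.exp 1) < L := by
      rw [hL, Real.lt_log_iff_exp_lt hc0]
      exact lt_of_le_of_lt (le_max_right _ _) hX
    have hL0' : L0 ≤ L := (le_max_left _ _).trans hLbig.le
    have hLe : Real.exp 1 < L := lt_of_le_of_lt (le_max_right _ _) hLbig
    have hLpos : 0 < L := (Real.exp_pos 1).trans hLe
    have hlogL : 1 < Real.log L := by
      rw [Real.lt_log_iff_exp_lt hLpos]; exact hLe
    have hlogL0 : 0 < Real.log L := by linarith
    have hLC1 : 24 * L ≤ Real.log C := by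
      have h1 := Real.log_le_log (by positivity) s2'
      rw [Real.log_pow] at h1
      push_cast at h1
      exact h1
    have hLC2 : Real.log C ≤ 24 * (L + 1) := by
      have h1 := Real.log_le_log hC0 s3'
      rw [Real.log_mul (by norm_num) (by positivity), Real.log_pow] at h1
      have h2 : Real.log 4096 ≤ 24 := by
        have h3 : (4096 : ℝ) = 2 ^ 12 := by norm_num
        rw [h3, Real.log_pow]
        have := Real.log_two_lt_d9
        push_cast
        linarith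
      push_cast at h1
      linarith
    have hLL : Real.log L ≤ Real.log (Real.log C) :=
      Real.log_le_log hLpos (by linarith)
    have hsq : √(Real.log C) ≤ √24 * (√L + 1) := by
      calc √(Real.log C) ≤ √(24 * (L + 1)) := Real.sqrt_le_sqrt hLC2
        _ = √24 * √(L + 1) := Real.sqrt_mul (by norm_num) _
        _ ≤ √24 * (√L + 1) := by
            gcongr
            rw [Real.sqrt_le_left (by positivity)]
            nlinarith [Real.sq_sqrt hLpos.le, Real.sqrt_nonneg L]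
    -- the exponents
    have hexp : Real.log 24 + κ' * √(Real.log C) / Real.log (Real.log C) ≤
        κ * √L / Real.log L := by
      have h1 : κ' * √(Real.log C) / Real.log (Real.log C) ≤
          κ' * (√24 * (√L + 1)) / Real.log L := by
        gcongr
      refine (add_le_add le_rfl h1).trans ?_
      rw [← sub_nonneg]
      have h2 : κ * √L / Real.log L - (Real.log 24 + κ' * (√24 * (√L + 1)) / Real.log L) =
          ((κ - κ' * √24) * √L - (Real.log 24 * Real.log L + κ' * √24)) / Real.log L := by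
        field_simp
        ring
      rw [h2]
      exact div_nonneg (by linarith [hL0 L hL0']) hlogL0.le
    -- the end
    have h1 : (t.2.2 : ℝ) * (r' * Real.exp (κ' * √(Real.log C) / Real.log (Real.log C))) <
        t.2.2 * C := by
      calc (t.2.2 : ℝ) * (r' * Real.exp (κ' * √(Real.log C) / Real.log (Real.log C)))
          = ((t.2.2 : ℝ) * r') * Real.exp (κ' * √(Real.log C) / Real.log (Real.log C)) := by
            ring
        _ ≤ (24 * C * r) * Real.exp (κ' * √(Real.log C) / Real.log (Real.log C)) := by gcongr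
        _ = C * (r * (Real.exp (Real.log 24 +
              κ' * √(Real.log C) / Real.log (Real.log C)))) := by
            rw [Real.exp_add, Real.exp_log (by norm_num)]; ring
        _ ≤ C * (r * Real.exp (κ * √L / Real.log L)) := by gcongr
        _ < C * t.2.2 := by gcongr
        _ = t.2.2 * C := by ring
    exact lt_of_mul_lt_mul_left h1 hc0.le

theorem rec_fam (k : ℕ) : ∀ κ : ℝ, 0 ≤ κ → κ < 6.84 / √24 ^ k → Rec (Fam k) κ := by
  have h24 : 0 < √(24 : ℝ) := by positivity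
  induction k with
  | zero =>
    intro κ h0 h1
    refine rec_base h0 ?_
    simpa using h1.le
  | succ k ih =>
    intro κ h0 h1
    have h2 : κ * √24 < 6.84 / √24 ^ k := by
      have h3 : (6.84 : ℝ) / √24 ^ (k + 1) * √24 = 6.84 / √24 ^ k := by
        rw [pow_succ]; field_simp
      rw [← h3]
      gcongr
    obtain ⟨κ1, h3, h4⟩ := exists_between h2
    have h5 : 0 ≤ κ1 := by
      have : 0 ≤ κ * √24 := by positivity
      linarith
    rw [fam_succ]
    exact rec_step h0 h3 (ih κ1 h5 h4)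

end Pool.Agent.Q290.Abc
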